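import Mathlib
import Pool.Agent.Y734.I.Defs

/-!
# Project Y734/I, HBAR: independent subfamilies of the degenerate arrangement
-/

set_option autoImplicit false

namespace Pool.Agent.Y734.I.HBAR

open Finset

variable {n q : ℕ}

/-- points on the moment curve -/
def vv (n : ℕ) {q : ℕ} (x : Fin q) (m : Fin (n + 1)) : ℚ := ((x : ℕ) : ℚ) ^ (m : ℕ)

/-- the rows -/
noncomputable def row {R : Type} [CommRing R] [Algebra ℚ R] (C A : Finset (Fin q))
    (ψ : Fin q → Fin q) (Λ : Fin q × Fin q → R) (i : Fin q) (m : Fin (n + 1)) : R :=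
  if i ∈ C then algebraMap ℚ R (vv n (ψ i) m) + ∑ a ∈ A, Λ (ψ i, a) * algebraMap ℚ R (vv n a m)
  else algebraMap ℚ R (vv n i m)

lemma row_map {R R' : Type} [CommRing R] [Algebra ℚ R] [CommRing R'] [Algebra ℚ R']
    (f : R →+* R') (C A : Finset (Fin q)) (ψ : Fin q → Fin q) (Λ : Fin q × Fin q → R) (i : Fin q)
    (m : Fin (n + 1)) : f (row C A ψ Λ i m) = row C A ψ (fun z => f (Λ z)) i m := by
  unfold row
  have h : ∀ y : ℚ, f (algebraMap ℚ R y) = algebraMap ℚ R' y := fun y => by
    rw [← RingHom.comp_apply]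
    exact congrArg (fun g : ℚ →+* R' => g y) (Subsingleton.elim _ _)
  split_ifs
  · rw [map_add, map_sum, h]
    congr 1
    exact sum_congr rfl fun a _ => by rw [map_mul, h]
  · exact h _

lemma exists_inj {ι : Type} [DecidableEq ι] {S T : Finset ι} (h : S.card ≤ T.card) :
    ∃ α : ι → ι, (∀ j ∈ S, α j ∈ T) ∧ ∀ j ∈ S, ∀ j' ∈ S, α j = α j' → j = j' := by
  classical
  obtain ⟨e⟩ : Nonempty (S ↪ T) := Function.Embedding.nonempty_of_card_le (by simpa using h)
  refine ⟨fun j => if hj : j ∈ S then (e ⟨j, hj⟩ : ι) else j, fun j hj => ?_,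
    fun j hj j' hj' he => ?_⟩
  · simp only [hj, dif_pos]
    exact (e ⟨j, hj⟩).2
  · simp only [hj, hj', dif_pos] at he
    have := e.injective (Subtype.ext he)
    exact congrArg Subtype.val this

/-- independence of points on the moment curve -/
lemma vand {B : Finset (Fin q)} (hB : B.card = n + 1) {f : Fin q → Fin q}
    (hf : ∀ i ∈ B, ∀ i' ∈ B, f i = f i' → i = i') {c : Fin q → ℚ}
    (h : ∀ m, ∑ i ∈ B, c i * vv n (f i) m = 0) : ∀ i ∈ B, c i = 0 := by
  classical
  let e : Fin (n + 1) ≃ B := (B.equivFinOfCardEq hB).symm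
  set M : Matrix (Fin (n + 1)) (Fin (n + 1)) ℚ :=
    Matrix.vandermonde (fun s => (((f (e s) : Fin q) : ℕ) : ℚ)) with hM
  have hdet : M.det ≠ 0 := by
    rw [hM, Matrix.det_vandermonde_ne_zero_iff]
    intro s s' hs
    have hs' : (((f (e s) : Fin q) : ℕ) : ℚ) = (((f (e s') : Fin q) : ℕ) : ℚ) := hs
    have h1 : ((f (e s) : Fin q) : ℕ) = ((f (e s') : Fin q) : ℕ) := by exact_mod_cast hs'
    exact e.injective (Subtype.ext (hf _ (e s).2 _ (e s').2 (Fin.ext h1)))
  by_contra hcon
  push Not at hcon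
  obtain ⟨i, hi, hci⟩ := hcon
  apply hdet
  rw [← Matrix.exists_vecMul_eq_zero_iff]
  refine ⟨fun s => c (e s), fun h0 => hci ?_, ?_⟩
  · have := congrFun h0 (e.symm ⟨i, hi⟩)
    simpa using this
  · ext m
    have h2 : ∑ s, c (e s) * M s m = ∑ i ∈ B, c i * vv n (f i) m := by
      rw [← sum_coe_sort B]
      exact Fintype.sum_equiv e _ _ fun s => by
        simp [hM, Matrix.vandermonde_apply, vv]
    simp only [Matrix.vecMul, dotProduct, Pi.zero_apply]
    rw [h2]
    exact h m

variable {C A J : Finset (Fin q)} {φ ψ : Fin q → Fin q}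

/-- a special choice of the parameters -/
lemma special (hA : A.card + 1 = n) (hAC : Disjoint A C) (hJC : Disjoint J C)
    (hJA : Disjoint J A) (hφ : ∀ j ∈ J, φ j ∈ C) (hψ : ∀ i ∈ C, ψ i ∈ J ∧ φ (ψ i) = i)
    (hψφ : ∀ j ∈ J, ψ (φ j) = j)
    {B : Finset (Fin q)} (hB : B.card = n + 1)
    (hbad : ∀ j ∈ J, B ≠ insert j (insert (φ j) A)) :
    ∃ l : Fin q × Fin q → ℚ, ∀ c : Fin q → ℚ,
      (∀ m : Fin (n + 1), ∑ i ∈ B, c i * row C A ψ l i m = 0) → ∀ i ∈ B, c i = 0 := by
  classical
  have dAC : ∀ x ∈ A, x ∉ C := fun x hx => disjoint_left.1 hAC hx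
  have dJC : ∀ x ∈ J, x ∉ C := fun x hx => disjoint_left.1 hJC hx
  have dJA : ∀ x ∈ J, x ∉ A := fun x hx => disjoint_left.1 hJA hx
  set S := J.filter (fun j => j ∈ B ∧ φ j ∈ B) with hS
  have mS : ∀ j, j ∈ S ↔ j ∈ J ∧ j ∈ B ∧ φ j ∈ B := fun j => by rw [hS, mem_filter]
  have hφinj : ∀ j ∈ J, ∀ j' ∈ J, φ j = φ j' → j = j' := fun j hj j' hj' he => by
    rw [← hψφ j hj, he, hψφ j' hj']
  -- counting
  have hcard : S.card ≤ (A \ B).card := by
    have h1 : (A ∩ B) ∪ (S ∪ S.image φ) ⊆ B := by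
      intro x hx
      rcases mem_union.1 hx with h | h
      · exact (mem_inter.1 h).2
      · rcases mem_union.1 h with h | h
        · exact ((mS x).1 h).2.1
        · obtain ⟨j, hj, rfl⟩ := mem_image.1 h
          exact ((mS j).1 hj).2.2
    have d1 : Disjoint S (S.image φ) := disjoint_left.2 fun x hx hx' => by
      obtain ⟨j, hj, rfl⟩ := mem_image.1 hx'
      exact dJC _ ((mS _).1 hx).1 (hφ j ((mS j).1 hj).1)
    have d2 : Disjoint (A ∩ B) (S ∪ S.image φ) := disjoint_left.2 fun x hx hx' => by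
      have hxA := (mem_inter.1 hx).1
      rcases mem_union.1 hx' with h | h
      · exact dJA _ ((mS x).1 h).1 hxA
      · obtain ⟨j, hj, rfl⟩ := mem_image.1 h
        exact dAC _ hxA (hφ j ((mS j).1 hj).1)
    have h2 := card_le_card h1
    rw [card_union_of_disjoint d2, card_union_of_disjoint d1,
      card_image_of_injOn (fun j hj j' hj' he => hφinj j ((mS j).1 hj).1 j' ((mS j').1 hj').1 he),
      hB] at h2
    have h3 := card_sdiff_add_card_inter A B
    rcases Nat.lt_or_ge S.card 2 with h4 | h4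
    · rcases Nat.eq_zero_or_pos S.card with h5 | h5
      · omega
      · have h6 : S.card = 1 := by omega
        by_contra hlt
        have h7 : (A \ B).card = 0 := by omega
        have h8 : A ⊆ B := by
          rw [card_eq_zero] at h7
          exact sdiff_eq_empty_iff_subset.1 h7
        obtain ⟨j, hj⟩ := card_pos.1 h5
        obtain ⟨hjJ, hjB, hφB⟩ := (mS j).1 hj
        apply hbad j hjJ
        have h9 : insert j (insert (φ j) A) ⊆ B := by
          intro x hx
          rcases mem_insert.1 hx with rfl | hx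
          · exact hjB
          · rcases mem_insert.1 hx with rfl | hx
            · exact hφB
            · exact h8 hx
        have h10 : φ j ∉ A := fun h => dAC _ h (hφ j hjJ)
        have h11 : j ∉ insert (φ j) A := fun h => by
          rcases mem_insert.1 h with h | h
          · exact dJC _ hjJ (h ▸ hφ j hjJ)
          · exact dJA _ hjJ h
        refine (eq_of_subset_of_card_le h9 ?_).symm
        rw [card_insert_of_notMem h11, card_insert_of_notMem h10, hB]
        omega
    · omega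
  obtain ⟨α, hα, hαi⟩ := exists_inj hcard
  refine ⟨fun z => if z.1 ∈ S ∧ z.2 = α z.1 then 1 else 0, fun c hc => ?_⟩
  -- the rows
  set f : Fin q → Fin q := fun i => if i ∈ C then (if ψ i ∈ B then α (ψ i) else ψ i) else i
    with hf
  have hfC : ∀ i, i ∉ C → f i = i := fun i hi => by simp [hf, hi]
  have hψS : ∀ i ∈ B, i ∈ C → ψ i ∈ B → ψ i ∈ S := fun i hi hiC hψB =>
    (mS _).2 ⟨(hψ i hiC).1, hψB, by rw [(hψ i hiC).2]; exact hi⟩
  have hf1 : ∀ i ∈ B, i ∈ C → ψ i ∈ B → f i = α (ψ i) := fun i _ hiC hψB => by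
    simp [hf, hiC, hψB]
  have hf2 : ∀ i ∈ B, i ∈ C → ψ i ∉ B → f i = ψ i := fun i _ hiC hψB => by
    simp [hf, hiC, hψB]
  have hfinj : ∀ i ∈ B, ∀ i' ∈ B, f i = f i' → i = i' := by
    have hψinj : ∀ i ∈ C, ∀ i' ∈ C, ψ i = ψ i' → i = i' := fun i hi i' hi' he => by
      rw [← (hψ i hi).2, he, (hψ i' hi').2]
    -- the images of elements of `C` are outside of `B`
    have hout : ∀ i ∈ B, i ∈ C → f i ∉ B := by
      intro i hi hiC
      by_cases hψB : ψ i ∈ B
      · rw [hf1 i hi hiC hψB]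
        exact (mem_sdiff.1 (hα _ (hψS i hi hiC hψB))).2
      · rw [hf2 i hi hiC hψB]
        exact hψB
    intro i hi i' hi' he
    by_cases hiC : i ∈ C <;> by_cases hiC' : i' ∈ C
    · by_cases h1 : ψ i ∈ B <;> by_cases h2 : ψ i' ∈ B
      · rw [hf1 i hi hiC h1, hf1 i' hi' hiC' h2] at he
        exact hψinj i hiC i' hiC' (hαi _ (hψS i hi hiC h1) _ (hψS i' hi' hiC' h2) he)
      · rw [hf1 i hi hiC h1, hf2 i' hi' hiC' h2] at he
        exact absurd (he ▸ (mem_sdiff.1 (hα _ (hψS i hi hiC h1))).1) (dJA _ (hψ i' hiC').1)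
      · rw [hf2 i hi hiC h1, hf1 i' hi' hiC' h2] at he
        exact absurd (he ▸ (mem_sdiff.1 (hα _ (hψS i' hi' hiC' h2))).1) (dJA _ (hψ i hiC).1)
      · rw [hf2 i hi hiC h1, hf2 i' hi' hiC' h2] at he
        exact hψinj i hiC i' hiC' he
    · rw [hfC i' hiC'] at he
      exact absurd (he ▸ hi') (hout i hi hiC)
    · rw [hfC i hiC] at he
      exact absurd (he.symm ▸ hi) (hout i' hi' hiC')
    · rw [hfC i hiC, hfC i' hiC'] at he
      exact he
  set c' : Fin q → ℚ := fun i => c i + if i ∈ S then c (φ i) else 0 with hc'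
  have key : ∀ m : Fin (n + 1), ∑ i ∈ B, c' i * vv n (f i) m = 0 := by
    intro m
    rw [← hc m]
    have e1 : ∀ i ∈ B, c i * row (R := ℚ) C A ψ
        (fun z => if z.1 ∈ S ∧ z.2 = α z.1 then 1 else 0) i m =
        c i * vv n (f i) m + if ψ i ∈ S ∧ i ∈ C then c i * vv n (ψ i) m else 0 := by
      intro i hi
      unfold row
      simp only [eq_ratCast, Rat.cast_id]
      by_cases hiC : i ∈ C
      · by_cases hψB : ψ i ∈ B
        · have hs := hψS i hi hiC hψB
          have h1 : ∑ a ∈ A, (if ψ i ∈ S ∧ a = α (ψ i) then (1 : ℚ) else 0) * vv n a m =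
              vv n (α (ψ i)) m := by
            rw [sum_eq_single (α (ψ i))]
            · simp [hs]
            · intro a _ ha
              simp [ha]
            · intro h
              exact absurd (mem_sdiff.1 (hα _ hs)).1 h
          rw [if_pos hiC, h1, if_pos ⟨hs, hiC⟩, hf1 i hi hiC hψB]
          ring
        · have hs : ψ i ∉ S := fun h => hψB ((mS _).1 h).2.1
          have h1 : ∑ a ∈ A, (if ψ i ∈ S ∧ a = α (ψ i) then (1 : ℚ) else 0) * vv n a m = 0 :=
            sum_eq_zero fun a _ => by simp [hs]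
          rw [if_pos hiC, h1, if_neg (fun h => hs h.1), hf2 i hi hiC hψB]
          ring
      · rw [if_neg hiC, if_neg (fun h => hiC h.2), hfC i hiC, add_zero]
    rw [sum_congr rfl e1, sum_add_distrib]
    have e2 : ∀ i ∈ B, c' i * vv n (f i) m =
        c i * vv n (f i) m + if i ∈ S then c (φ i) * vv n i m else 0 := by
      intro i hi
      by_cases hs : i ∈ S
      · have hiC : i ∉ C := dJC _ ((mS i).1 hs).1
        simp only [hc', hs, if_true, hfC i hiC]
        ring
      · simp only [hc', hs, if_false]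
        ring
    rw [sum_congr rfl e2, sum_add_distrib]
    congr 1
    rw [← sum_filter, ← sum_filter]
    refine sum_bij' (fun i _ => φ i) (fun i _ => ψ i) ?_ ?_ ?_ ?_ ?_
    · intro i hi
      obtain ⟨_, hs⟩ := mem_filter.1 hi
      obtain ⟨h1, h2, h3⟩ := (mS i).1 hs
      exact mem_filter.2 ⟨h3, by rw [hψφ i h1]; exact hs, hφ i h1⟩
    · intro i hi
      obtain ⟨_, hs, hiC⟩ := mem_filter.1 hi
      exact mem_filter.2 ⟨((mS _).1 hs).2.1, hs⟩
    · intro i hi
      exact hψφ i ((mS i).1 (mem_filter.1 hi).2).1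
    · intro i hi
      exact (hψ i (mem_filter.1 hi).2.2).2
    · intro i hi
      rw [hψφ i ((mS i).1 (mem_filter.1 hi).2).1]
  have hz := vand hB hfinj key
  have hzC : ∀ i ∈ B, i ∉ S → c i = 0 := by
    intro i hi hs
    have := hz i hi
    simpa [hc', hs] using this
  intro i hi
  by_cases hs : i ∈ S
  · obtain ⟨h1, h2, h3⟩ := (mS i).1 hs
    have h4 := hz i hi
    have h5 : φ i ∉ S := fun h => dJC _ ((mS _).1 h).1 (hφ i h1)
    have h6 := hzC (φ i) h3 h5
    simpa [hc', hs, h6] using h4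
  · exact hzC i hi hs

end Pool.Agent.Y734.I.HBAR
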