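import Mathlib
import Pool.Agent.Y734.I.Stms
import Pool.Agent.Y734.I.HBAR.A

/-!
# Project Y734/I, HBAR: a degenerate arrangement without base points
-/

set_option autoImplicit false

namespace Pool.Agent.Y734.I.HBAR

open Finset

variable {n q : ℕ}

/-- the minors -/
noncomputable def dt {R : Type} [CommRing R] [Algebra ℚ R] (C A : Finset (Fin q))
    (ψ : Fin q → Fin q) (Λ : Fin q × Fin q → R) (B : Finset (Fin q)) (hB : B.card = n + 1) : R :=
  (Matrix.of fun (s m : Fin (n + 1)) =>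
    row C A ψ Λ ((B.equivFinOfCardEq hB).symm s : Fin q) m).det

lemma dt_map {R R' : Type} [CommRing R] [Algebra ℚ R] [CommRing R'] [Algebra ℚ R']
    (f : R →+* R') (C A : Finset (Fin q)) (ψ : Fin q → Fin q) (Λ : Fin q × Fin q → R)
    (B : Finset (Fin q)) (hB : B.card = n + 1) :
    f (dt C A ψ Λ B hB) = dt C A ψ (fun z => f (Λ z)) B hB := by
  unfold dt
  rw [RingHom.map_det]
  congr 1
  ext s m
  exact row_map f C A ψ Λ _ m

variable {C A J : Finset (Fin q)} {φ ψ : Fin q → Fin q}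

lemma exists_dt (hA : A.card + 1 = n) (hAC : Disjoint A C) (hJC : Disjoint J C)
    (hJA : Disjoint J A) (hφ : ∀ j ∈ J, φ j ∈ C) (hψ : ∀ i ∈ C, ψ i ∈ J ∧ φ (ψ i) = i)
    (hψφ : ∀ j ∈ J, ψ (φ j) = j)
    {B : Finset (Fin q)} (hB : B.card = n + 1)
    (hbad : ∀ j ∈ J, B ≠ insert j (insert (φ j) A)) :
    ∃ l : Fin q × Fin q → ℚ, dt C A ψ l B hB ≠ 0 := by
  classical
  obtain ⟨l, hl⟩ := special hA hAC hJC hJA hφ hψ hψφ hB hbad
  refine ⟨l, fun h0 => ?_⟩
  unfold dt at h0
  rw [← Matrix.exists_vecMul_eq_zero_iff] at h0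
  obtain ⟨v, hv, hv0⟩ := h0
  apply hv
  set e := (B.equivFinOfCardEq hB).symm with he
  have h1 := hl (fun i => if h : i ∈ B then v (e.symm ⟨i, h⟩) else 0) (fun m => by
    have h2 := congrFun hv0 m
    simp only [Matrix.vecMul, dotProduct, Matrix.of_apply, Pi.zero_apply] at h2
    rw [← h2, ← sum_coe_sort B]
    refine (Fintype.sum_equiv e _ _ fun s => ?_).symm
    have h3 : (e s : Fin q) ∈ B := (e s).2
    simp)
  ext s
  have := h1 (e s) (e s).2
  simpa using this

lemma exists_l (hA : A.card + 1 = n) (hAC : Disjoint A C) (hJC : Disjoint J C)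
    (hJA : Disjoint J A) (hφ : ∀ j ∈ J, φ j ∈ C) (hψ : ∀ i ∈ C, ψ i ∈ J ∧ φ (ψ i) = i)
    (hψφ : ∀ j ∈ J, ψ (φ j) = j) :
    ∃ l : Fin q × Fin q → ℚ, ∀ (B : Finset (Fin q)) (hB : B.card = n + 1),
      (∀ j ∈ J, B ≠ insert j (insert (φ j) A)) → dt C A ψ l B hB ≠ 0 := by
  classical
  set 𝓑 : Finset (Finset (Fin q)) := (powersetCard (n + 1) univ).filter
    (fun B => ∀ j ∈ J, B ≠ insert j (insert (φ j) A)) with h𝓑
  have hm : ∀ B ∈ 𝓑, B.card = n + 1 := fun B hB => (mem_powersetCard.1 (mem_filter.1 hB).1).2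
  set Φ : MvPolynomial (Fin q × Fin q) ℚ :=
    ∏ B ∈ 𝓑.attach, dt C A ψ (fun z => MvPolynomial.X z) B.1 (hm _ B.2) with hΦ
  have hev : ∀ (l : Fin q × Fin q → ℚ) (B : Finset (Fin q)) (hB : B.card = n + 1),
      MvPolynomial.eval l (dt C A ψ (fun z => MvPolynomial.X z) B hB) = dt C A ψ l B hB := by
    intro l B hB
    rw [dt_map (MvPolynomial.eval l)]
    simp
  have hne : Φ ≠ 0 := by
    rw [hΦ, prod_ne_zero_iff]
    intro B _ h0
    obtain ⟨l, hl⟩ := exists_dt hA hAC hJC hJA hφ hψ hψφ (hm _ B.2) (mem_filter.1 B.2).2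
    apply hl
    rw [← hev, h0, map_zero]
  obtain ⟨l, hl⟩ : ∃ l, MvPolynomial.eval l Φ ≠ 0 := by
    by_contra hcon
    push Not at hcon
    exact hne (MvPolynomial.funext fun x => by rw [hcon, map_zero])
  refine ⟨l, fun B hB hbad => ?_⟩
  rw [hΦ, map_prod, prod_ne_zero_iff] at hl
  have hBm : B ∈ 𝓑 := mem_filter.2 ⟨mem_powersetCard.2 ⟨subset_univ _, hB⟩, hbad⟩
  have := hl ⟨B, hBm⟩ (mem_attach _ _)
  rwa [hev] at this

lemma point_zero {l : Fin q × Fin q → ℚ} {B : Finset (Fin q)} (hB : B.card = n + 1)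
    (h : dt C A ψ l B hB ≠ 0) {κ : Type} [Field κ] [Algebra ℚ κ] {p : Fin (n + 1) → κ}
    (hp : ∀ i ∈ B, ev (fun m => row (R := ℚ) C A ψ l i m) p = 0) : p = 0 := by
  by_contra hne
  have h1 : dt C A ψ (fun z => algebraMap ℚ κ (l z)) B hB = 0 := by
    unfold dt
    rw [← Matrix.exists_mulVec_eq_zero_iff]
    refine ⟨p, hne, ?_⟩
    ext s
    have h2 := hp _ ((B.equivFinOfCardEq hB).symm s).2
    unfold ev at h2
    simp only [Matrix.mulVec, dotProduct, Matrix.of_apply, Pi.zero_apply]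
    rw [← h2]
    exact sum_congr rfl fun m _ => by rw [row_map (algebraMap ℚ κ)]
  rw [← dt_map (algebraMap ℚ κ)] at h1
  exact h ((map_eq_zero _).1 h1)

end Pool.Agent.Y734.I.HBAR

namespace Pool.Agent.Y734.I

open Finset HBAR in
theorem HBAR.hbar : HbarStmt := by
  classical
  intro n r q hn hq C A J hA hAC hJC hJA φ hφ
  have hφC : ∀ j ∈ J, φ j ∈ C := fun j hj => hφ.mapsTo hj
  set ψ : Fin q → Fin q := fun i => if h : ∃ j ∈ J, φ j = i then h.choose else i with hψd
  have hψ : ∀ i ∈ C, ψ i ∈ J ∧ φ (ψ i) = i := by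
    intro i hi
    have h : ∃ j ∈ J, φ j = i := hφ.surjOn hi
    have e : ψ i = h.choose := by simp only [hψd]; rw [dif_pos h]
    rw [e]
    exact h.choose_spec
  have hψφ : ∀ j ∈ J, ψ (φ j) = j := fun j hj =>
    hφ.injOn (hψ _ (hφC j hj)).1 hj (hψ _ (hφC j hj)).2
  have dAC : ∀ x ∈ A, x ∉ C := fun x hx => disjoint_left.1 hAC hx
  have dJC : ∀ x ∈ J, x ∉ C := fun x hx => disjoint_left.1 hJC hx
  have dJA : ∀ x ∈ J, x ∉ A := fun x hx => disjoint_left.1 hJA hx
  obtain ⟨l, hl⟩ := exists_l (n := n) hA hAC hJC hJA hφC hψ hψφ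
  set H : Fin q → Fin (n + 1) → ℚ := fun i m => row (R := ℚ) C A ψ l i m with hH
  have hHn : ∀ i, i ∉ C → H i = fun m => vv n i m := by
    intro i hi
    ext m
    simp [hH, row, hi]
  refine ⟨H, fun j hj => ?_, fun κ _ _ p hp => ?_⟩
  · have e : H (φ j) = H j + ∑ a ∈ A, l (j, a) • H a := by
      ext m
      rw [hHn j (dJC j hj)]
      simp only [hH, row, hφC j hj, if_true, hψφ j hj, eq_ratCast, Rat.cast_id, Pi.add_apply,
        Finset.sum_apply, Pi.smul_apply, smul_eq_mul]
      congr 1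
      refine sum_congr rfl fun a ha => ?_
      rw [if_neg (dAC a ha)]
    rw [e]
    refine Submodule.add_mem _ (Submodule.subset_span ⟨j, by simp, rfl⟩)
      (Submodule.sum_mem _ fun a ha => Submodule.smul_mem _ _ (Submodule.subset_span ⟨a, ?_, rfl⟩))
    simp [ha]
  · by_contra hcon
    push Not at hcon
    let Z : (Fin (n + 1) → κ) → Finset (Fin q) := fun x => univ.filter (fun i => ev (H i) x = 0)
    have mZ : ∀ x i, i ∈ Z x ↔ ev (H i) x = 0 := fun x i => by simp [Z]
    have hbadset : ∀ x : Fin (n + 1) → κ, x ≠ 0 → ∀ B : Finset (Fin q), B.card = n + 1 →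
        B ⊆ Z x → ∃ j ∈ J, B = insert j (insert (φ j) A) := by
      intro x hx B hB hBZ
      by_contra h
      push Not at h
      exact hx (point_zero hB (hl B hB h) fun i hi => (mZ x i).1 (hBZ hi))
    have hZ : ∀ x : Fin (n + 1) → κ, x ≠ 0 → (Z x).card ≤ n ∨
        ∃ j ∈ J, Z x = insert j (insert (φ j) A) := by
      intro x hx
      by_contra h
      push Not at h
      obtain ⟨h1, h2⟩ := h
      obtain ⟨B, hBZ, hB⟩ := exists_subset_card_eq (show n + 1 ≤ (Z x).card by omega)
      obtain ⟨j, hj, hBj⟩ := hbadset x hx B hB hBZ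
      have h3 : ∃ z ∈ Z x, z ∉ B := by
        by_contra h4
        push Not at h4
        exact h2 j hj (by rw [← hBj]; exact Subset.antisymm h4 hBZ)
      obtain ⟨z, hz, hzB⟩ := h3
      obtain ⟨a, ha⟩ : A.Nonempty := card_pos.1 (by omega)
      have haB : a ∈ B := by rw [hBj]; simp [ha]
      have hB1 : (insert z (B.erase a)).card = n + 1 := by
        rw [card_insert_of_notMem (fun h => hzB (mem_of_mem_erase h)), card_erase_of_mem haB, hB]
        omega
      obtain ⟨j', hj', hBj'⟩ := hbadset x hx _ hB1 (by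
        intro y hy
        rcases mem_insert.1 hy with rfl | hy
        · exact hz
        · exact hBZ (mem_of_mem_erase hy))
      have h5 : a ∈ insert z (B.erase a) := by rw [hBj']; simp [ha]
      rcases mem_insert.1 h5 with h6 | h6
      · exact hzB (h6 ▸ haB)
      · exact (notMem_erase a B) h6
    have hcov : ∀ i, ∃ k, i ∈ Z (p k) := by
      intro i
      have h1 := hcon i
      unfold nf at h1
      obtain ⟨k, _, hk⟩ := prod_eq_zero_iff.1 h1
      exact ⟨k, (mZ _ _).2 hk⟩
    by_cases hm : ∃ k₀, ∃ j ∈ J, Z (p k₀) = insert j (insert (φ j) A)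
    · obtain ⟨k₀, j₀, hj₀, hk₀⟩ := hm
      have two : ∀ k, ∀ j ∈ J, Z (p k) = insert j (insert (φ j) A) → (Z (p k) \ A).card ≤ 2 := by
        intro k j hj h
        have h1 : Z (p k) \ A ⊆ {j, φ j} := by
          intro y hy
          obtain ⟨h2, h3⟩ := mem_sdiff.1 hy
          rw [h] at h2
          rcases mem_insert.1 h2 with h4 | h4
          · simp [h4]
          · rcases mem_insert.1 h4 with h5 | h5
            · simp [h5]
            · exact absurd h5 h3
        exact (card_le_card h1).trans card_le_two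
      have hle : ∀ k, (Z (p k) \ A).card ≤ n := by
        intro k
        rcases hZ (p k) (hp k) with h | ⟨j, hj, h⟩
        · exact (card_le_card sdiff_subset).trans h
        · exact (two k j hj h).trans hn
      have h1 : (univ : Finset (Fin q)) ⊆ A ∪ univ.biUnion (fun k => Z (p k) \ A) := by
        intro i _
        obtain ⟨k, hk⟩ := hcov i
        by_cases hiA : i ∈ A
        · exact mem_union_left _ hiA
        · exact mem_union_right _ (mem_biUnion.2 ⟨k, mem_univ _, mem_sdiff.2 ⟨hk, hiA⟩⟩)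
      have h2 := (card_le_card h1).trans ((card_union_le _ _).trans
        (Nat.add_le_add_left card_biUnion_le _))
      rw [← add_sum_erase univ _ (mem_univ k₀), card_univ, Fintype.card_fin] at h2
      have h3 := two k₀ j₀ hj₀ hk₀
      have h4 : ∑ k ∈ univ.erase k₀, (Z (p k) \ A).card ≤ (r - 1) * n := by
        refine (sum_le_card_nsmul _ _ n fun k _ => hle k).trans ?_
        rw [card_erase_of_mem (mem_univ _), card_univ, Fintype.card_fin, smul_eq_mul]
      have hr : 1 ≤ r := by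
        have := k₀.2
        omega
      obtain ⟨r', rfl⟩ := Nat.exists_eq_add_of_le' hr
      rw [Nat.add_sub_cancel] at h4
      rw [add_mul, one_mul] at hq
      omega
    · push Not at hm
      have h1 : (univ : Finset (Fin q)) ⊆ univ.biUnion (fun k => Z (p k)) := by
        intro i _
        obtain ⟨k, hk⟩ := hcov i
        exact mem_biUnion.2 ⟨k, mem_univ _, hk⟩
      have h2 := (card_le_card h1).trans card_biUnion_le
      have h3 : ∑ k, (Z (p k)).card ≤ r * n := by
        refine (sum_le_card_nsmul _ _ n fun k _ => ?_).trans ?_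
        · rcases hZ (p k) (hp k) with h | ⟨j, hj, h⟩
          · exact h
          · exact absurd h (hm k j hj)
        · rw [card_univ, Fintype.card_fin, smul_eq_mul]
      rw [card_univ, Fintype.card_fin] at h2
      omega

end Pool.Agent.Y734.I
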